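import Mathlib
import Pool.Agent.H270R2.GEN.Defs
import Pool.Agent.H735G.Defs2
import Pool.Agent.Helper467.FP.P_tau_bounds

/-!
ROOM GEN, BLOCK 2 (freeness), task FS: the random walk gives approximate freeness.
-/

set_option autoImplicit false

open scoped ComplexOrder Topology
open Filter

noncomputable section

namespace Pool.Agent.H270G.T_FS

open Pool.Agent.H467F Pool.Agent.H735G Pool.Agent.H270G

variable {A : Type} [CStarAlgebra A]

/-- The index set of the coefficients. -/
abbrev Jx : Type := Option (Fin 4) × Option (Fin 4)

/-- The unitaries `1, x_i`. -/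
def xo (x : Fin 4 → unitary A) : Option (Fin 4) → unitary A
  | none => 1
  | some i => x i

/-- The coefficients `x_a x_b^*`. -/
def yc (x : Fin 4 → unitary A) (j : Jx) : A := ((xo x j.1 * star (xo x j.2) : unitary A) : A)

/-- The part of a letter behind `c`. -/
def pst (p : Fin 4 × Bool) : Option (Fin 4) := if p.2 = true then some p.1 else none

/-- The part of the next letter in front of `c`. -/
def pre : List (Fin 4 × Bool) → Option (Fin 4)
  | [] => none
  | p :: _ => if p.2 = true then none else some p.1

/-- Translation of words. -/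
def tr : List (Fin 4 × Bool) → List (Lt Jx)
  | [] => []
  | p :: L => (p.1, p.2, (pst p, pre L)) :: tr L

theorem tr_length (L : List (Fin 4 × Bool)) : (tr L).length = L.length := by
  induction L with
  | nil => rfl
  | cons p L ih => simp [tr, ih]

theorem red_tr (L : List (Fin 4 × Bool)) (hL : FreeGroup.IsReduced L) : Red (tr L) := by
  induction L with
  | nil => exact List.isChain_nil
  | cons p L ih =>
    cases L with
    | nil => exact List.isChain_singleton _
    | cons q L =>
      rw [FreeGroup.isReduced_cons_cons] at hL
      unfold Red tr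
      have h1 : Red (tr (q :: L)) := ih hL.2
      unfold Red at h1
      unfold tr at h1 ⊢
      rw [List.isChain_cons_cons]
      refine ⟨?_, h1⟩
      simp only
      rintro ⟨h2, h3⟩
      exact h3 (hL.1 h2)

theorem val (c x : Fin 4 → unitary A) (L : List (Fin 4 × Bool)) :
    (((L.map fun p => cond p.2 (c p.1 * x p.1) (c p.1 * x p.1)⁻¹).prod : unitary A) : A) =
      yc x (none, pre L) * wv (fun i => (c i : A)) (yc x) (tr L) := by
  induction L with
  | nil => simp [yc, pre, tr, wv, xo]
  | cons p L ih =>
    obtain ⟨i, e⟩ := p
    rw [List.map_cons, List.prod_cons]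
    have hx : ∀ o, (star (xo x o : A)) * (xo x o : A) = 1 := fun o => Unitary.coe_star_mul_self _
    cases e with
    | true =>
      simp only [cond_true, Submonoid.coe_mul, ih, tr, wv, cl, if_true, yc, pre, pst, xo,
        Unitary.coe_star, one_mul, star_one]
      simp only [OneMemClass.coe_one, star_one, one_mul, mul_assoc]
    | false =>
      simp only [cond_false, ih, tr, wv, cl, yc, pre, pst, xo, Submonoid.coe_mul,
        Bool.false_eq_true, if_false, Unitary.coe_star]
      rw [← Unitary.star_eq_inv]
      simp only [OneMemClass.coe_one, star_one, one_mul, mul_assoc, star_mul, Submonoid.coe_mul,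
        Unitary.coe_star]

theorem af_of_walk {τ : A →ₗ[ℂ] ℂ} (h : TW τ) (hz : EZP τ)
    (N : StarSubalgebra ℂ A) (hW : Walk τ N) : AF τ N := by
  intro u v S hS δ hδ
  set x : Fin 4 → unitary A := ![1, 1, u, v] with hx
  obtain ⟨c, hc, hw⟩ := hW Jx (yc x) (fun j => by
    unfold yc
    by_cases hA : Nontrivial A
    · exact (CStarRing.norm_coe_unitary _).le
    · have := not_nontrivial_iff_subsingleton.1 hA
      rw [Subsingleton.elim ((xo x j.1 * star (xo x j.2) : unitary A) : A) 0, norm_zero]
      exact zero_le_one) (S.sup fun w => w.toWord.length) δ hδ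
  refine ⟨c, hc, ?_⟩
  intro w hwS
  have hw1 : w ≠ 1 := fun h0 => hS (h0 ▸ hwS)
  have hf : (![c 0, c 1, c 2 * u, c 3 * v] : Fin 4 → unitary A) = fun i => c i * x i := by
    funext i
    fin_cases i <;> simp [hx]
  have hval : ((FreeGroup.lift ![c 0, c 1, c 2 * u, c 3 * v] w : unitary A) : A) =
      yc x (none, pre w.toWord) * wv (fun i => (c i : A)) (yc x) (tr w.toWord) := by
    rw [← val c x w.toWord, hf]
    conv_lhs => rw [← FreeGroup.mk_toWord (x := w)]
    rw [FreeGroup.lift_mk]
  have hne : tr w.toWord ≠ [] := by
    intro h0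
    have h1 := congrArg List.length h0
    rw [tr_length] at h1
    have h2 : w.toWord = [] := List.eq_nil_of_length_eq_zero (by simpa using h1)
    exact hw1 (FreeGroup.toWord_eq_nil_iff.1 h2)
  have hlen : (tr w.toWord).length ≤ S.sup fun w => w.toWord.length := by
    rw [tr_length]
    exact Finset.le_sup (f := fun w : FreeGroup (Fin 4) => w.toWord.length) hwS
  have hred := red_tr w.toWord FreeGroup.isReduced_toWord
  have h1 := hw (none, pre w.toWord) (tr w.toWord) hne hlen hred
  rw [hval, ← hz.trace]
  exact ((tau_bounds h).1 _).trans h1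

end Pool.Agent.H270G.T_FS
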